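import Pool.Agent.H87.CS.Targets

/-!
# Module CAU: the Cauchy transform
-/

set_option autoImplicit false

namespace Pool.Agent.H9.CS

open Set Complex Topology Filter MeasureTheory Pool.Agent.H87.CS
open scoped ContDiff Convolution

/-- `w ↦ 1 / (π w)`. -/
noncomputable def ker (w : ℂ) : ℂ := ((Real.pi : ℂ) * w)⁻¹

lemma norm_ker (w : ℂ) : ‖ker w‖ = (Real.pi * ‖w‖)⁻¹ := by
  unfold ker
  rw [norm_inv, norm_mul, Complex.norm_real, Real.norm_eq_abs, abs_of_pos Real.pi_pos]

lemma measurable_ker : Measurable ker := by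
  unfold ker
  fun_prop

lemma integrableOn_ker_norm (r : ℝ) :
    IntegrableOn (fun w : ℂ => (Real.pi * ‖w‖)⁻¹) (Metric.ball (0 : ℂ) r) := by
  rw [integrableOn_fun_norm_addHaar (E := ℂ) volume (f := fun y : ℝ => (Real.pi * y)⁻¹)]
  rw [Complex.finrank_real_complex]
  have h : IntegrableOn (fun _ : ℝ => (Real.pi)⁻¹) (Ioo 0 r) := by
    apply integrableOn_const
    · exact measure_Ioo_lt_top.ne
    · simp
  refine h.congr_fun ?_ measurableSet_Ioo
  intro y hy
  have hy0 : y ≠ 0 := (ne_of_gt hy.1)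
  have hp : Real.pi ≠ 0 := Real.pi_ne_zero
  have h2 : (2 - 1 : ℕ) = 1 := rfl
  simp only [smul_eq_mul, h2, pow_one]
  field_simp

lemma integrableOn_ker (r : ℝ) : IntegrableOn ker (Metric.ball (0 : ℂ) r) := by
  refine Integrable.mono' (integrableOn_ker_norm r) measurable_ker.aestronglyMeasurable ?_
  filter_upwards with w
  rw [norm_ker]

lemma locInt_ker : LocallyIntegrable ker := by
  intro x
  refine ⟨Metric.ball 0 (‖x‖ + 1), ?_, integrableOn_ker _⟩
  apply Metric.isOpen_ball.mem_nhds
  simp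

/-- The Cauchy transform. -/
noncomputable def Cau (g : ℂ → ℂ) : ℂ → ℂ :=
  ker ⋆[ContinuousLinearMap.mul ℝ ℂ, volume] g

lemma Cau_apply (g : ℂ → ℂ) (z : ℂ) : Cau g z = ∫ t, ker t * g (z - t) := rfl

lemma hcs_of {g : ℂ → ℂ} {R : ℝ} (hg : ∀ z, R < ‖z‖ → g z = 0) : HasCompactSupport g := by
  apply HasCompactSupport.of_support_subset_isCompact (isCompact_closedBall (0 : ℂ) R)
  intro z hz
  by_contra h
  apply hz
  apply hg
  simpa using h

/-- Cauchy-Pompeiu at the origin, in polar coordinates. -/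
lemma pompeiu {h : ℂ → ℂ} (hh : ContDiff ℝ 1 h) (hc : HasCompactSupport h) :
    ∫ t, ker t * dbar h t = - h 0 := by
  -- radius of the support
  obtain ⟨R, hR⟩ := hc.isCompact.isBounded.subset_closedBall (0 : ℂ)
  set R1 : ℝ := max R 0 + 1 with hR1
  have hR1pos : 0 < R1 := by positivity
  have hz : ∀ z : ℂ, R1 ≤ ‖z‖ → z ∉ tsupport h := by
    intro z hz hz2
    have := hR hz2
    simp only [Metric.mem_closedBall, dist_zero_right] at this
    have h3 : R ≤ max R 0 := le_max_left _ _
    linarith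
  have hz0 : ∀ z : ℂ, R1 ≤ ‖z‖ → h z = 0 := fun z h1 => image_eq_zero_of_notMem_tsupport (hz z h1)
  have hzf : ∀ z : ℂ, R1 ≤ ‖z‖ → fderiv ℝ h z = 0 := by
    intro z h1
    have h2 : z ∉ tsupport (fderiv ℝ h) := fun h3 => hz z h1 (tsupport_fderiv_subset ℝ h3)
    exact image_eq_zero_of_notMem_tsupport h2
  have hdiff : Differentiable ℝ h := hh.differentiable one_ne_zero
  have hfc : Continuous (fderiv ℝ h) := hh.continuous_fderiv one_ne_zero
  set D1 : ℂ → ℂ := fun z => fderiv ℝ h z 1 with hD1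
  set D2 : ℂ → ℂ := fun z => fderiv ℝ h z I with hD2
  have hD1c : Continuous D1 := hfc.clm_apply continuous_const
  have hD2c : Continuous D2 := hfc.clm_apply continuous_const
  -- polar map
  set P : ℝ × ℝ → ℂ := fun p => p.1 * (Real.cos p.2 + Real.sin p.2 * I) with hP
  have hPc : Continuous P := by
    simp only [hP]; fun_prop
  have hPn : ∀ p : ℝ × ℝ, ‖P p‖ = |p.1| := by
    intro p
    have := Complex.norm_polarCoord_symm p
    rw [Complex.polarCoord_symm_apply] at this
    exact this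
  -- the two integrands
  set A : ℝ × ℝ → ℂ := fun p => Real.cos p.2 * D1 (P p) + Real.sin p.2 * D2 (P p) with hA
  set B : ℝ × ℝ → ℂ := fun p => -Real.sin p.2 * D1 (P p) + Real.cos p.2 * D2 (P p) with hB
  have hAc : Continuous A := by
    simp only [hA]
    fun_prop
  have hBc : Continuous B := by
    simp only [hB]
    fun_prop
  set S : Set (ℝ × ℝ) := Ioi (0 : ℝ) ×ˢ Ioo (-Real.pi) Real.pi with hS
  have hAB0 : ∀ p : ℝ × ℝ, R1 ≤ p.1 → A p = 0 ∧ B p = 0 := by
    intro p hp
    have h1 : R1 ≤ ‖P p‖ := by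
      rw [hPn, abs_of_pos (lt_of_lt_of_le hR1pos hp)]; exact hp
    have h2 : D1 (P p) = 0 := by simp only [hD1]; rw [hzf _ h1]; rfl
    have h3 : D2 (P p) = 0 := by simp only [hD2]; rw [hzf _ h1]; rfl
    constructor
    · simp only [hA]; rw [h2, h3]; simp
    · simp only [hB]; rw [h2, h3]; simp
  have hint : ∀ G : ℝ × ℝ → ℂ, Continuous G → (∀ p : ℝ × ℝ, R1 ≤ p.1 → G p = 0) →
      IntegrableOn G S := by
    intro G hG hG0
    have h1 : IntegrableOn G (Icc (0 : ℝ) R1 ×ˢ Icc (-Real.pi) Real.pi) :=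
      hG.continuousOn.integrableOn_compact (isCompact_Icc.prod isCompact_Icc)
    have h2 : IntegrableOn G (S ∩ (Icc (0 : ℝ) R1 ×ˢ Icc (-Real.pi) Real.pi)) :=
      h1.mono_set inter_subset_right
    have hmS : MeasurableSet S := measurableSet_Ioi.prod measurableSet_Ioo
    rw [← integrable_indicator_iff hmS]
    have hmT : MeasurableSet (S ∩ (Icc (0 : ℝ) R1 ×ˢ Icc (-Real.pi) Real.pi)) :=
      hmS.inter (measurableSet_Icc.prod measurableSet_Icc)
    rw [← integrable_indicator_iff hmT] at h2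
    refine h2.congr ?_
    filter_upwards with p
    by_cases hp : p ∈ S
    · rw [indicator_of_mem hp]
      by_cases hp2 : p.1 ≤ R1
      · rw [indicator_of_mem]
        refine ⟨hp, ⟨⟨le_of_lt hp.1, hp2⟩, ⟨le_of_lt hp.2.1, le_of_lt hp.2.2⟩⟩⟩
      · push Not at hp2
        rw [hG0 p hp2.le, indicator_of_notMem]
        intro h3
        have := h3.2.1.2
        linarith
    · rw [indicator_of_notMem hp, indicator_of_notMem]
      exact fun h3 => hp h3.1
  have hAi : IntegrableOn A S := hint A hAc (fun p hp => (hAB0 p hp).1)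
  have hBi : IntegrableOn B S := hint B hBc (fun p hp => (hAB0 p hp).2)
  -- integral of A
  have hPr : ∀ (r θ : ℝ), HasDerivAt (fun x : ℝ => P (x, θ)) (Real.cos θ + Real.sin θ * I) r := by
    intro r θ
    simp only [hP]
    have h1 : HasDerivAt (fun x : ℝ => ((x : ℂ))) 1 r := Complex.ofRealCLM.hasDerivAt
    have h2 := h1.mul_const ((Real.cos θ : ℂ) + Real.sin θ * I)
    simpa using h2
  have hPθ : ∀ (r θ : ℝ), HasDerivAt (fun y : ℝ => P (r, y))
      ((r : ℂ) * (-Real.sin θ + Real.cos θ * I)) θ := by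
    intro r θ
    simp only [hP]
    have h1 : HasDerivAt (fun y : ℝ => ((Real.cos y : ℝ) : ℂ)) ((-Real.sin θ : ℝ) : ℂ) θ :=
      (Real.hasDerivAt_cos θ).ofReal_comp
    have h2 : HasDerivAt (fun y : ℝ => ((Real.sin y : ℝ) : ℂ)) ((Real.cos θ : ℝ) : ℂ) θ :=
      (Real.hasDerivAt_sin θ).ofReal_comp
    have h3 := (h1.add (h2.mul_const I)).const_mul (r : ℂ)
    have h4 : ((-Real.sin θ : ℝ) : ℂ) = -(Real.sin θ : ℂ) := by push_cast; rfl
    rw [h4] at h3
    exact h3
  have hlin : ∀ (z : ℂ) (a b : ℝ), fderiv ℝ h z ((a : ℂ) + (b : ℂ) * I) = a * D1 z + b * D2 z := by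
    intro z a b
    have e : ((a : ℂ) + (b : ℂ) * I) = a • (1 : ℂ) + b • I := by
      simp [Complex.real_smul]
    rw [e, map_add, map_smul, map_smul, Complex.real_smul, Complex.real_smul]
  have hHr : ∀ (r θ : ℝ), HasDerivAt (fun x : ℝ => h (P (x, θ))) (A (r, θ)) r := by
    intro r θ
    have h1 := (hdiff (P (r, θ))).hasFDerivAt.comp_hasDerivAt r (hPr r θ)
    rw [hlin] at h1
    exact h1
  have hHθ : ∀ (r θ : ℝ), HasDerivAt (fun y : ℝ => h (P (r, y))) (r * B (r, θ)) θ := by
    intro r θ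
    have h1 := (hdiff (P (r, θ))).hasFDerivAt.comp_hasDerivAt θ (hPθ r θ)
    have e : ((r : ℂ) * (-Real.sin θ + Real.cos θ * I)) =
        r • (((-Real.sin θ : ℝ) : ℂ) + ((Real.cos θ : ℝ) : ℂ) * I) := by
      rw [Complex.real_smul]; push_cast; rfl
    rw [e, map_smul, hlin, Complex.real_smul] at h1
    have e2 : (r : ℂ) * B (r, θ) = (r : ℂ) * (((-Real.sin θ : ℝ) : ℂ) * D1 (P (r, θ)) +
        ((Real.cos θ : ℝ) : ℂ) * D2 (P (r, θ))) := by
      simp only [hB]; push_cast; rfl
    rw [e2]
    exact h1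
  have hP0 : ∀ θ : ℝ, P (0, θ) = 0 := by
    intro θ; simp only [hP]; simp
  have hAint : ∫ p in S, A p = -(2 * Real.pi) * h 0 := by
    have e1 : ∫ p in S, A p = ∫ p in Ioo (-Real.pi) Real.pi ×ˢ Ioi (0 : ℝ), A p.swap :=
      (setIntegral_prod_swap (μ := (volume : Measure ℝ)) (ν := (volume : Measure ℝ)) _ _ A).symm
    rw [e1]
    have e2 : IntegrableOn (fun p : ℝ × ℝ => A p.swap)
        (Ioo (-Real.pi) Real.pi ×ˢ Ioi (0 : ℝ)) ((volume : Measure ℝ).prod volume) := by
      have h5 : Integrable A ((volume.restrict (Ioi (0 : ℝ))).prod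
          (volume.restrict (Ioo (-Real.pi) Real.pi))) := by
        rw [Measure.prod_restrict]
        exact hAi
      have h6 := h5.swap
      rw [Measure.prod_restrict] at h6
      exact h6
    have e3 : ∫ p in Ioo (-Real.pi) Real.pi ×ˢ Ioi (0 : ℝ), A p.swap =
        ∫ θ in Ioo (-Real.pi) Real.pi, ∫ r in Ioi (0 : ℝ), A (r, θ) :=
      setIntegral_prod (μ := (volume : Measure ℝ)) (ν := (volume : Measure ℝ))
        (fun p : ℝ × ℝ => A p.swap) e2
    rw [e3]
    have e4 : ∀ θ : ℝ, ∫ r in Ioi (0 : ℝ), A (r, θ) = - h 0 := by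
      intro θ
      have h7 : IntegrableOn (fun r : ℝ => A (r, θ)) (Ioi 0) := by
        have h8 : IntegrableOn (fun r : ℝ => A (r, θ)) (Icc 0 R1) :=
          (by fun_prop : Continuous fun r : ℝ => A (r, θ)).continuousOn.integrableOn_compact
            isCompact_Icc
        have h9 : IntegrableOn (fun r : ℝ => A (r, θ)) (Ioi R1) := by
          have h0 : IntegrableOn (fun _ : ℝ => (0 : ℂ)) (Ioi R1) := integrableOn_zero
          refine h0.congr_fun ?_ measurableSet_Ioi
          intro r hr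
          exact ((hAB0 (r, θ) (le_of_lt hr)).1).symm
        refine (h8.union h9).mono_set ?_
        intro r hr
        by_cases h10 : r ≤ R1
        · left; exact ⟨le_of_lt hr, h10⟩
        · right; push Not at h10; exact h10
      have h11 := integral_Ioi_of_hasDerivAt_of_tendsto' (a := 0) (m := 0)
        (f := fun x : ℝ => h (P (x, θ))) (f' := fun r => A (r, θ))
        (fun r _ => hHr r θ) h7 ?_
      · rw [h11, hP0]; simp
      · apply tendsto_const_nhds.congr'
        filter_upwards [eventually_ge_atTop R1] with r hr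
        rw [hz0]
        rw [hPn, abs_of_pos (lt_of_lt_of_le hR1pos hr)]
        exact hr
    simp_rw [e4]
    rw [setIntegral_const]
    simp only [Real.volume_real_Ioo, Complex.real_smul]
    rw [max_eq_left (by linarith [Real.pi_pos])]
    push_cast
    ring
  have hBint : ∫ p in S, B p = 0 := by
    have e3 : ∫ p in S, B p = ∫ r in Ioi (0 : ℝ), ∫ θ in Ioo (-Real.pi) Real.pi, B (r, θ) :=
      setIntegral_prod (μ := (volume : Measure ℝ)) (ν := (volume : Measure ℝ)) B hBi
    rw [e3]
    have e4 : ∀ r ∈ Ioi (0 : ℝ), ∫ θ in Ioo (-Real.pi) Real.pi, B (r, θ) = 0 := by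
      intro r hr
      have hr0 : (r : ℂ) ≠ 0 := by
        have : r ≠ 0 := ne_of_gt hr
        exact_mod_cast this
      have h1 : ∫ θ in (-Real.pi)..Real.pi, (r : ℂ) * B (r, θ) = 0 := by
        rw [intervalIntegral.integral_eq_sub_of_hasDerivAt (f := fun y => h (P (r, y)))
          (fun θ _ => hHθ r θ)]
        · simp only [hP]; simp
        · exact (by fun_prop : Continuous fun θ : ℝ => (r : ℂ) * B (r, θ)).intervalIntegrable _ _
      rw [intervalIntegral.integral_const_mul] at h1
      have h2 : ∫ θ in (-Real.pi)..Real.pi, B (r, θ) = 0 := by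
        rcases mul_eq_zero.mp h1 with h3 | h3
        · exact absurd h3 hr0
        · exact h3
      rw [intervalIntegral.integral_of_le (by linarith [Real.pi_pos]),
        integral_Ioc_eq_integral_Ioo] at h2
      exact h2
    rw [setIntegral_congr_fun measurableSet_Ioi e4]
    simp
  -- conclusion
  rw [← Complex.integral_comp_polarCoord_symm]
  have e5 : ∫ p in polarCoord.target, p.1 • ((fun t => ker t * dbar h t) (Complex.polarCoord.symm p))
      = ∫ p in S, ((2 * Real.pi : ℂ)⁻¹ * A p + ((2 * Real.pi : ℂ)⁻¹ * I) * B p) := by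
    have h0 : polarCoord.target = S := rfl
    rw [h0]
    apply setIntegral_congr_fun (measurableSet_Ioi.prod measurableSet_Ioo)
    intro p hp
    have hp1 : (p.1 : ℂ) ≠ 0 := by
      have : p.1 ≠ 0 := ne_of_gt hp.1
      exact_mod_cast this
    have hpi : (Real.pi : ℂ) ≠ 0 := by exact_mod_cast Real.pi_ne_zero
    have hPp : Complex.polarCoord.symm p = P p := Complex.polarCoord_symm_apply p
    simp only [hPp, Complex.real_smul]
    have hcs : ((Real.cos p.2 : ℝ) : ℂ) ^ 2 + ((Real.sin p.2 : ℝ) : ℂ) ^ 2 = 1 := by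
      have := Real.cos_sq_add_sin_sq p.2
      exact_mod_cast this
    have hu : ((Real.cos p.2 : ℂ) + Real.sin p.2 * I) * ((Real.cos p.2 : ℂ) - Real.sin p.2 * I) = 1
        := by
      linear_combination hcs - ((Real.sin p.2 : ℝ) : ℂ) ^ 2 * Complex.I_sq
    have hu0 : ((Real.cos p.2 : ℂ) + Real.sin p.2 * I) ≠ 0 := left_ne_zero_of_mul_eq_one hu
    have hk : (p.1 : ℂ) * ker (P p) = (Real.pi : ℂ)⁻¹ * ((Real.cos p.2 : ℂ) - Real.sin p.2 * I) := by
      unfold ker
      simp only [hP]
      rw [mul_inv, mul_inv]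
      have h9 : ((Real.cos p.2 : ℂ) + Real.sin p.2 * I)⁻¹ = (Real.cos p.2 : ℂ) - Real.sin p.2 * I :=
        inv_eq_of_mul_eq_one_right hu
      rw [h9]
      field_simp
    rw [← mul_assoc, hk]
    unfold dbar
    simp only [hA, hB, hD1, hD2]
    field_simp
    linear_combination (-(((Real.sin p.2 : ℝ) : ℂ) * (fderiv ℝ h (P p)) I)) * Complex.I_sq
  rw [e5, integral_add (hAi.const_mul _) (hBi.const_mul _), integral_const_mul, integral_const_mul,
    hAint, hBint]
  have hpi : (Real.pi : ℂ) ≠ 0 := by exact_mod_cast Real.pi_ne_zero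
  field_simp
  ring


/-- Change of variables for the reflected function. -/
lemma dbar_refl {g : ℂ → ℂ} (hg : Differentiable ℝ g) (z t : ℂ) :
    dbar (fun w => g (z - w)) t = - dbar g (z - t) := by
  have h1 : HasFDerivAt (fun w : ℂ => z - w) (-(ContinuousLinearMap.id ℝ ℂ)) t := by
    simpa using (hasFDerivAt_id t).const_sub z
  have h2 := (hg (z - t)).hasFDerivAt.comp t h1
  have h3 : fderiv ℝ (fun w => g (z - w)) t =
      (fderiv ℝ g (z - t)).comp (-(ContinuousLinearMap.id ℝ ℂ)) := h2.fderiv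
  unfold dbar
  rw [h3]
  simp
  ring

lemma dbar_Cau {g : ℂ → ℂ} (hg : ContDiff ℝ 1 g) (hc : HasCompactSupport g) (z : ℂ) :
    dbar (Cau g) z = g z := by
  have hd : Differentiable ℝ g := hg.differentiable one_ne_zero
  have hfc : Continuous (fderiv ℝ g) := hg.continuous_fderiv one_ne_zero
  have hfs : HasCompactSupport (fderiv ℝ g) := hc.fderiv ℝ
  have h1 := hc.hasFDerivAt_convolution_right (ContinuousLinearMap.mul ℝ ℂ) locInt_ker hg z
  have h2 : ∀ v : ℂ, fderiv ℝ (Cau g) z v = ∫ t, ker t * fderiv ℝ g (z - t) v := by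
    intro v
    have h3 : fderiv ℝ (Cau g) z = _ := h1.fderiv
    rw [h3, convolution_precompR_apply _ locInt_ker hfs hfc z v]
    rfl
  have hint : ∀ v : ℂ, Integrable (fun t => ker t * fderiv ℝ g (z - t) v) := by
    intro v
    have hs : HasCompactSupport (fun a => fderiv ℝ g a v) := by
      refine hfs.comp_left (g := fun L : ℂ →L[ℝ] ℂ => L v) ?_
      rfl
    exact hs.convolutionExists_right (ContinuousLinearMap.mul ℝ ℂ) locInt_ker
      (hfc.clm_apply continuous_const) z
  have h4 : dbar (Cau g) z = ∫ t, ker t * dbar g (z - t) := by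
    unfold dbar
    rw [h2, h2, ← integral_const_mul, ← integral_add (hint 1) ((hint I).const_mul I),
      ← integral_const_mul]
    congr 1
    funext t
    ring
  have h5 : ContDiff ℝ 1 (fun w => g (z - w)) := hg.comp (contDiff_const.sub contDiff_id)
  have h6 : HasCompactSupport (fun w => g (z - w)) := by
    have := hc.comp_homeomorph (Homeomorph.subLeft z)
    exact this
  have h7 := pompeiu h5 h6
  simp_rw [dbar_refl hd z] at h7
  simp only [sub_zero, mul_neg] at h7
  rw [integral_neg, neg_inj] at h7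
  rw [h4, h7]

lemma diff_Cau {g : ℂ → ℂ} (hg : ContDiff ℝ 1 g) (hc : HasCompactSupport g) :
    Differentiable ℝ (Cau g) := by
  intro z
  exact (hc.hasFDerivAt_convolution_right (ContinuousLinearMap.mul ℝ ℂ) locInt_ker hg
    z).differentiableAt

/-- The constant in the bound. -/
noncomputable def AA (R : ℝ) : ℝ :=
  (∫ t in Metric.ball (0 : ℂ) 1, (Real.pi * ‖t‖)⁻¹) +
    Real.pi⁻¹ * volume.real (Metric.closedBall (0 : ℂ) R)

lemma AA_nonneg (R : ℝ) : 0 ≤ AA R := by
  unfold AA
  apply add_nonneg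
  · apply integral_nonneg
    intro t
    have := Real.pi_pos
    positivity
  · have := Real.pi_pos
    positivity

lemma bound_Cau {g : ℂ → ℂ} {R M : ℝ} (hz : ∀ z, R < ‖z‖ → g z = 0)
    (hM : ∀ z, ‖g z‖ ≤ M) (z : ℂ) : ‖Cau g z‖ ≤ AA R * M := by
  have hM0 : 0 ≤ M := le_trans (norm_nonneg _) (hM 0)
  have hpi := Real.pi_pos
  rw [Cau_apply]
  set φ : ℂ → ℝ := fun t => M * ((Metric.ball (0 : ℂ) 1).indicator (fun t => (Real.pi * ‖t‖)⁻¹) t +
    (Metric.closedBall z R).indicator (fun _ => Real.pi⁻¹) t) with hφ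
  have hi1 : Integrable ((Metric.ball (0 : ℂ) 1).indicator (fun t => (Real.pi * ‖t‖)⁻¹)) :=
    (integrable_indicator_iff measurableSet_ball).mpr (integrableOn_ker_norm 1)
  have hi2 : Integrable ((Metric.closedBall z R).indicator (fun _ : ℂ => Real.pi⁻¹)) := by
    rw [integrable_indicator_iff measurableSet_closedBall]
    apply integrableOn_const
    · exact (isCompact_closedBall z R).measure_lt_top.ne
    · simp
  have hle : ∀ t, ‖ker t * g (z - t)‖ ≤ φ t := by
    intro t
    rw [norm_mul, norm_ker]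
    simp only [hφ]
    have hk0 : 0 ≤ (Real.pi * ‖t‖)⁻¹ := by positivity
    have hind1 : 0 ≤ (Metric.ball (0 : ℂ) 1).indicator (fun t => (Real.pi * ‖t‖)⁻¹) t := by
      apply indicator_nonneg
      intro x _
      positivity
    have hind2 : 0 ≤ (Metric.closedBall z R).indicator (fun _ : ℂ => Real.pi⁻¹) t := by
      apply indicator_nonneg
      intro x _
      positivity
    by_cases hzt : R < ‖z - t‖
    · rw [hz _ hzt, norm_zero, mul_zero]
      positivity
    · push Not at hzt
      have hmem : t ∈ Metric.closedBall z R := by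
        rw [Metric.mem_closedBall, dist_comm, dist_eq_norm]; exact hzt
      rw [indicator_of_mem hmem]
      have h1 : (Real.pi * ‖t‖)⁻¹ ≤
          (Metric.ball (0 : ℂ) 1).indicator (fun t => (Real.pi * ‖t‖)⁻¹) t + Real.pi⁻¹ := by
        by_cases ht : ‖t‖ < 1
        · have hm : t ∈ Metric.ball (0 : ℂ) 1 := by simpa using ht
          rw [indicator_of_mem hm]
          have : 0 ≤ Real.pi⁻¹ := by positivity
          linarith
        · push Not at ht
          have h2 : (Real.pi * ‖t‖)⁻¹ ≤ Real.pi⁻¹ := by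
            apply inv_anti₀ hpi
            nlinarith
          linarith
      calc (Real.pi * ‖t‖)⁻¹ * ‖g (z - t)‖ ≤ (Real.pi * ‖t‖)⁻¹ * M :=
            mul_le_mul_of_nonneg_left (hM _) hk0
        _ = M * (Real.pi * ‖t‖)⁻¹ := mul_comm _ _
        _ ≤ _ := mul_le_mul_of_nonneg_left h1 hM0
  have hφi : Integrable φ := (hi1.add hi2).const_mul M
  calc ‖∫ t, ker t * g (z - t)‖ ≤ ∫ t, φ t :=
        norm_integral_le_of_norm_le hφi (Filter.Eventually.of_forall hle)
    _ = M * ((∫ t in Metric.ball (0 : ℂ) 1, (Real.pi * ‖t‖)⁻¹) +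
        volume.real (Metric.closedBall z R) * Real.pi⁻¹) := by
        simp only [hφ]
        rw [integral_const_mul, integral_add hi1 hi2, integral_indicator measurableSet_ball,
          integral_indicator measurableSet_closedBall, setIntegral_const, smul_eq_mul]
    _ = AA R * M := by
        unfold AA
        have hv : volume.real (Metric.closedBall z R) = volume.real (Metric.closedBall (0 : ℂ) R) := by
          simp only [Measure.real]
          rw [Measure.addHaar_closedBall_center]
        rw [hv]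
        ring

theorem cau : T_cau := by
  refine ⟨Cau, ?_⟩
  intro R _
  refine ⟨AA R, AA_nonneg R, ?_, ?_⟩
  · intro g M hg hz hM
    have hc := hcs_of hz
    exact ⟨diff_Cau hg hc, dbar_Cau hg hc, bound_Cau hz hM⟩
  · intro g g' hg hg' hz hz' z
    have hc := hcs_of hz
    have hc' := hcs_of hz'
    have h1 : Integrable (fun t => ker t * g (z - t)) :=
      hc.convolutionExists_right (ContinuousLinearMap.mul ℝ ℂ) locInt_ker hg.continuous z
    have h2 : Integrable (fun t => ker t * g' (z - t)) :=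
      hc'.convolutionExists_right (ContinuousLinearMap.mul ℝ ℂ) locInt_ker hg'.continuous z
    rw [Cau_apply, Cau_apply, Cau_apply, ← integral_sub h1 h2]
    congr 1
    funext t
    ring

end Pool.Agent.H9.CS
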