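import Pool.Agent.H87.CS.Targets

/-!
# Module CONTR: the contraction lemma
-/

set_option autoImplicit false

namespace Pool.Agent.H9.CS

open Set Complex Topology Filter Pool.Agent.H87.CS

section

variable (Y : Set V2)

/-- Coordinate functions on `Y`. -/
def coordFn (i : Fin 2) : C(Y, ℂ) :=
  ⟨fun y => y.1 i, (continuous_apply i).comp continuous_subtype_val⟩

/-- Restriction of polynomials to `Y`. -/
noncomputable def ev : MvPolynomial (Fin 2) ℂ →ₐ[ℂ] C(Y, ℂ) := MvPolynomial.aeval (coordFn Y)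

lemma ev_apply (q : MvPolynomial (Fin 2) ℂ) (y : Y) : ev Y q y = MvPolynomial.eval y.1 q := by
  have h : (ContinuousMap.evalAlgHom ℂ ℂ y).comp (ev Y) = MvPolynomial.aeval (y.1 : V2) := by
    apply MvPolynomial.algHom_ext
    intro i
    simp [ev, coordFn, ContinuousMap.evalAlgHom]
  have h2 : ((ContinuousMap.evalAlgHom ℂ ℂ y).comp (ev Y)) q = MvPolynomial.aeval (y.1 : V2) q := by
    rw [h]
  exact h2

/-- The scaled polynomial. -/
noncomputable def scal (t : ℝ) (p : MvPolynomial (Fin 2) ℂ) : MvPolynomial (Fin 2) ℂ :=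
  MvPolynomial.aeval (fun i => MvPolynomial.C (t : ℂ) * MvPolynomial.X i) p

lemma eval_scal (t : ℝ) (p : MvPolynomial (Fin 2) ℂ) (y : V2) :
    MvPolynomial.eval y (scal t p) = MvPolynomial.eval (t • y) p := by
  unfold scal
  have h : ((MvPolynomial.aeval y : MvPolynomial (Fin 2) ℂ →ₐ[ℂ] ℂ)).comp
      (MvPolynomial.aeval (fun i => MvPolynomial.C (t : ℂ) * MvPolynomial.X i) :
        MvPolynomial (Fin 2) ℂ →ₐ[ℂ] MvPolynomial (Fin 2) ℂ) =
      MvPolynomial.aeval (t • y : V2) := by
    apply MvPolynomial.algHom_ext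
    intro i
    simp [Complex.real_smul]
  have h2 := congrArg (fun φ : MvPolynomial (Fin 2) ℂ →ₐ[ℂ] ℂ => φ p) h
  exact h2

lemma cont_eval (p : MvPolynomial (Fin 2) ℂ) : Continuous fun y : V2 => MvPolynomial.eval y p :=
  MvPolynomial.continuous_eval p

end

theorem contr : T_contr := by
  intro Y hY hYne p hp z hz hz0
  haveI : CompactSpace Y := isCompact_iff_compactSpace.mp hY
  haveI : Nonempty Y := hYne.to_subtype
  set A : Subalgebra ℂ C(Y, ℂ) := (ev Y).range.topologicalClosure with hA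
  have hAcl : IsClosed (A : Set C(Y, ℂ)) := Subalgebra.isClosed_topologicalClosure _
  haveI : CompleteSpace A := hAcl.completeSpace_coe
  -- the family
  set q : ℝ → C(Y, ℂ) := fun t => ev Y (scal t p) with hq
  have hqapp : ∀ t (y : Y), q t y = MvPolynomial.eval (t • y.1) p := by
    intro t y
    simp only [hq]
    rw [ev_apply, eval_scal]
  have hqc : Continuous q := by
    have h1 : Continuous (fun x : ℝ × Y => MvPolynomial.eval (x.1 • x.2.1) p) :=
      (cont_eval p).comp (continuous_fst.smul (continuous_subtype_val.comp continuous_snd))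
    have h2 : q = fun t => (ContinuousMap.curry ⟨_, h1⟩) t := by
      funext t
      ext y
      rw [hqapp]
      rfl
    rw [h2]
    exact ContinuousMap.continuous _
  have hqA : ∀ t, q t ∈ A := fun t =>
    Subalgebra.le_topologicalClosure _ ⟨scal t p, rfl⟩
  have hunit : ∀ t ∈ Icc (0 : ℝ) 1, IsUnit (q t) := by
    intro t ht
    rw [ContinuousMap.isUnit_iff_forall_ne_zero]
    intro y
    rw [hqapp]
    exact hp y.1 y.2 t ht.1 ht.2
  -- the clopen set
  set S : Set (Icc (0 : ℝ) 1) := {t | Ring.inverse (q t) ∈ A} with hS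
  have hinvc : Continuous (fun t : Icc (0 : ℝ) 1 => Ring.inverse (q t)) := by
    rw [continuous_iff_continuousAt]
    intro t
    obtain ⟨u, hu⟩ := hunit t.1 t.2
    have h1 : ContinuousAt Ring.inverse (q t) := by
      rw [← hu]; exact NormedRing.inverse_continuousAt u
    exact ContinuousAt.comp (f := fun t : Icc (0 : ℝ) 1 => q t) h1
      (hqc.comp continuous_subtype_val).continuousAt
  have hScl : IsClosed S := hAcl.preimage hinvc
  have hSop : IsOpen S := by
    set qA : Icc (0 : ℝ) 1 → A := fun t => ⟨q t, hqA t⟩ with hqAdef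
    have hqAc : Continuous qA := (hqc.comp continuous_subtype_val).subtype_mk _
    have h1 : S = qA ⁻¹' {x : A | IsUnit x} := by
      ext t
      simp only [hS, mem_setOf_eq, mem_preimage]
      constructor
      · intro h
        have hu := hunit t.1 t.2
        refine IsUnit.of_mul_eq_one (⟨Ring.inverse (q t), h⟩ : A) ?_
        apply Subtype.ext
        show q t * Ring.inverse (q t) = 1
        exact Ring.mul_inverse_cancel _ hu
      · rintro ⟨u, hu⟩
        have h2 : (q t) * ((u⁻¹ : Aˣ) : A).1 = 1 := by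
          have h3 : (u : A) * ((u⁻¹ : Aˣ) : A) = 1 := u.mul_inv
          have h4 := congrArg Subtype.val h3
          rw [hu] at h4
          exact h4
        have h5 : Ring.inverse (q t) = ((u⁻¹ : Aˣ) : A).1 := by
          have h6 := Ring.inverse_mul_cancel _ (hunit t.1 t.2)
          calc Ring.inverse (q t) = Ring.inverse (q t) * ((q t) * ((u⁻¹ : Aˣ) : A).1) := by
                rw [h2, mul_one]
            _ = ((u⁻¹ : Aˣ) : A).1 := by rw [← mul_assoc, h6, one_mul]
        rw [h5]
        exact ((u⁻¹ : Aˣ) : A).2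
    rw [h1]
    exact Units.isOpen.preimage hqAc
  have h0 : (⟨0, by simp⟩ : Icc (0 : ℝ) 1) ∈ S := by
    show Ring.inverse (q 0) ∈ A
    have hc : q 0 = algebraMap ℂ C(Y, ℂ) (MvPolynomial.eval 0 p) := by
      ext y
      rw [hqapp, zero_smul]
      rfl
    have hne : MvPolynomial.eval (0 : V2) p ≠ 0 := by
      obtain ⟨y, hy⟩ := hYne
      have := hp y hy 0 (le_refl _) zero_le_one
      rw [zero_smul] at this
      exact this
    have h1 : Ring.inverse (q 0) = algebraMap ℂ C(Y, ℂ) (MvPolynomial.eval 0 p)⁻¹ := by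
      have h2 : q 0 * algebraMap ℂ C(Y, ℂ) (MvPolynomial.eval 0 p)⁻¹ = 1 := by
        rw [hc, ← map_mul, mul_inv_cancel₀ hne, map_one]
      have h6 := Ring.inverse_mul_cancel _ (hunit 0 (by simp))
      calc Ring.inverse (q 0) = Ring.inverse (q 0) *
            (q 0 * algebraMap ℂ C(Y, ℂ) (MvPolynomial.eval 0 p)⁻¹) := by rw [h2, mul_one]
        _ = _ := by rw [← mul_assoc, h6, one_mul]
    rw [h1]
    exact A.algebraMap_mem _
  have hSuniv : S = univ := IsClopen.eq_univ ⟨hScl, hSop⟩ ⟨_, h0⟩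
  have h1S : (⟨1, by simp⟩ : Icc (0 : ℝ) 1) ∈ S := by rw [hSuniv]; trivial
  have h1A : Ring.inverse (q 1) ∈ A := h1S
  -- approximation
  have hcl : Ring.inverse (q 1) ∈ closure (((ev Y).range : Subalgebra ℂ C(Y, ℂ)) : Set C(Y, ℂ)) := by
    rw [← Subalgebra.topologicalClosure_coe]
    exact h1A
  have hopen : IsOpen {f : C(Y, ℂ) | ‖q 1 * f - 1‖ < 1} := by
    apply isOpen_lt _ continuous_const
    fun_prop
  have hmem : Ring.inverse (q 1) ∈ {f : C(Y, ℂ) | ‖q 1 * f - 1‖ < 1} := by
    simp only [mem_setOf_eq]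
    rw [Ring.mul_inverse_cancel _ (hunit 1 (by simp)), sub_self, norm_zero]
    exact one_pos
  obtain ⟨f, hf1, hf2⟩ := mem_closure_iff.mp hcl _ hopen hmem
  obtain ⟨r, hr⟩ := hf2
  obtain ⟨w, hw, hwle⟩ := hz (p * r - 1)
  have h2 : ‖MvPolynomial.eval w (p * r - 1)‖ < 1 := by
    have h3 : (q 1 * f - 1) ⟨w, hw⟩ = MvPolynomial.eval w (p * r - 1) := by
      have e1 : f ⟨w, hw⟩ = MvPolynomial.eval w r := by
        rw [← hr]
        exact ev_apply Y r ⟨w, hw⟩
      rw [ContinuousMap.sub_apply, ContinuousMap.mul_apply, hqapp, e1, one_smul]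
      simp
    rw [← h3]
    exact lt_of_le_of_lt (ContinuousMap.norm_coe_le_norm _ _) hf1
  have h4 : ‖MvPolynomial.eval z (p * r - 1)‖ = 1 := by
    rw [map_sub, map_mul, hz0, zero_mul, map_one]
    simp
  rw [h4] at hwle
  linarith

end Pool.Agent.H9.CS
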