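import Pool.Agent.H87.CS.Targets

/-!
# Module GEO2: interior of the star shaped body
-/

set_option autoImplicit false

namespace Pool.Agent.H9.CS

open Set Complex Topology Filter Pool.Agent.H87.CS
open scoped ContDiff

section

variable {F : ℝ → ℂ → ℂ} {E : Set (ℝ × ℂ)}

lemma exists_tau (h : Fam F E) (z : ℂ) (a τ0 : ℝ) :
    ∃ τ : ℝ, (F τ z).re = a ∧ |τ - τ0| ≤ 2 * |a - (F τ0 z).re| := by
  set d : ℝ := |a - (F τ0 z).re| with hd
  have hd0 : 0 ≤ d := abs_nonneg _
  have hc : Continuous fun τ : ℝ => (F τ z).re := by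
    have h1 : Continuous fun τ : ℝ => F τ z :=
      h.cont.comp (continuous_id.prodMk continuous_const)
    exact Complex.continuous_re.comp h1
  have h1 := h.mono z τ0 (τ0 + 2 * d) (by linarith)
  have h2 := h.mono z (τ0 - 2 * d) τ0 (by linarith)
  have h3 := abs_le.mp (le_refl |a - (F τ0 z).re|)
  rw [← hd] at h3
  have h4 : a ∈ (fun τ : ℝ => (F τ z).re) '' Icc (τ0 - 2 * d) (τ0 + 2 * d) := by
    apply intermediate_value_Icc (by linarith) hc.continuousOn
    constructor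
    · show (F (τ0 - 2 * d) z).re ≤ a
      linarith [h3.1]
    · show a ≤ (F (τ0 + 2 * d) z).re
      linarith [h3.2]
  obtain ⟨τ, hτ, hτ2⟩ := h4
  refine ⟨τ, hτ2, ?_⟩
  rw [abs_le]
  constructor <;> linarith [hτ.1, hτ.2]

lemma exp_split (w : ℂ) : Complex.exp (2 * Real.pi * I * w) =
    ((Real.exp (-(2 * Real.pi * w.im)) : ℝ) : ℂ) * Complex.exp (2 * Real.pi * w.re * I) := by
  rw [Complex.ofReal_exp, ← Complex.exp_add]
  congr 1
  apply Complex.ext <;> simp

lemma mem_W1 {y : V2} {τ : ℝ} (hy : y 0 ≠ 0) (hz : ‖y 1 / y 0‖ ≤ 2)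
    (harg : y 0 = (‖y 0‖ : ℂ) * Complex.exp (2 * Real.pi * (F τ (y 1 / y 0)).re * I))
    (hle : ‖y 0‖ ≤ Real.exp (-(2 * Real.pi * (F τ (y 1 / y 0)).im))) : y ∈ W F := by
  set z := y 1 / y 0 with hzdef
  set w := F τ z with hw
  have hp : 0 < Real.exp (-(2 * Real.pi * w.im)) := Real.exp_pos _
  refine ⟨τ, z, ‖y 0‖ / Real.exp (-(2 * Real.pi * w.im)), hz, by positivity, ?_, Or.inl ?_⟩
  · rw [div_le_one hp]; exact hle
  · have h0 : ((‖y 0‖ / Real.exp (-(2 * Real.pi * w.im)) : ℝ) : ℂ) *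
        Complex.exp (2 * Real.pi * I * w) = y 0 := by
      rw [exp_split]
      conv_rhs => rw [harg]
      have hp' : ((Real.exp (-(2 * Real.pi * w.im)) : ℝ) : ℂ) ≠ 0 := by
        exact_mod_cast hp.ne'
      rw [Complex.ofReal_div]
      field_simp
    funext i
    fin_cases i
    · simp only [pt1, Pi.smul_apply, Complex.real_smul, Fin.zero_eta, Matrix.cons_val_zero]
      rw [← hw, h0]
    · simp only [pt1, Pi.smul_apply, Complex.real_smul, Fin.mk_one, Matrix.cons_val_one,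
        Matrix.cons_val_fin_one]
      rw [← hw]
      have h1 : y 1 = z * y 0 := by rw [hzdef]; field_simp
      rw [h1]
      conv_lhs => rw [← h0]
      ring

/-- every nonzero number has a real argument -/
lemma exists_arg (u : ℂ) : ∃ a : ℝ, u = (‖u‖ : ℂ) * Complex.exp (2 * Real.pi * a * I) := by
  refine ⟨Complex.arg u / (2 * Real.pi), ?_⟩
  have h1 := Complex.norm_mul_exp_arg_mul_I u
  have hpi : (Real.pi : ℂ) ≠ 0 := by exact_mod_cast Real.pi_ne_zero
  have h2 : (2 * Real.pi * ((Complex.arg u / (2 * Real.pi) : ℝ) : ℂ) * I) = Complex.arg u * I := by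
    push_cast
    field_simp
  rw [h2, h1]

lemma mem_W1' (h : Fam F E) {y : V2} (hy : y 0 ≠ 0) (hz : ‖y 1 / y 0‖ ≤ 2)
    (hle : ∀ τ : ℝ, ‖y 0‖ ≤ Real.exp (-(2 * Real.pi * (F τ (y 1 / y 0)).im))) : y ∈ W F := by
  obtain ⟨a, ha⟩ := exists_arg (y 0)
  obtain ⟨τ, hτ, _⟩ := exists_tau h (y 1 / y 0) a 0
  refine mem_W1 (τ := τ) hy hz ?_ (hle τ)
  rw [hτ]; exact ha

/-- The swap. -/
def sw (y : V2) : V2 := ![y 1, y 0]

lemma sw_sw (y : V2) : sw (sw y) = y := by
  funext i; fin_cases i <;> simp [sw]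

lemma continuous_sw : Continuous sw := by
  apply continuous_pi
  intro i
  fin_cases i <;> simp only [sw] <;> fun_prop

lemma sw_smul (t : ℝ) (y : V2) : sw (t • y) = t • sw y := by
  funext i; fin_cases i <;> simp [sw]

lemma sw_pt1 (z w : ℂ) : sw (pt1 z w) = pt2 z w := by
  funext i; fin_cases i <;> simp [sw, pt1, pt2]

lemma sw_pt2 (z w : ℂ) : sw (pt2 z w) = pt1 z w := by
  funext i; fin_cases i <;> simp [sw, pt1, pt2]

lemma sw_mem_W {y : V2} (hy : y ∈ W F) : sw y ∈ W F := by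
  obtain ⟨τ, z, t, hz, ht0, ht1, h | h⟩ := hy
  · exact ⟨τ, z, t, hz, ht0, ht1, Or.inr (by rw [h, sw_smul, sw_pt1])⟩
  · exact ⟨τ, z, t, hz, ht0, ht1, Or.inl (by rw [h, sw_smul, sw_pt2])⟩

lemma sw_mem_W_iff {y : V2} : sw y ∈ W F ↔ y ∈ W F :=
  ⟨fun h => by rw [← sw_sw y]; exact sw_mem_W h, sw_mem_W⟩

lemma sw_interior {y : V2} (hy : y ∈ interior (W F)) : sw y ∈ interior (W F) := by
  rw [mem_interior_iff_mem_nhds] at hy ⊢
  have h1 : Tendsto sw (𝓝 (sw y)) (𝓝 y) := by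
    have := continuous_sw.tendsto (sw y)
    rw [sw_sw] at this
    exact this
  have h2 := h1.eventually hy
  filter_upwards [h2] with x hx
  exact sw_mem_W_iff.mp hx

/-- periodicity of the imaginary part -/
lemma im_int (h : Fam F E) (τ : ℝ) (z : ℂ) (n : ℤ) : (F (τ + n) z).im = (F τ z).im := by
  induction n using Int.induction_on with
  | zero => simp
  | succ k ih =>
    have := h.per (τ + k) z
    push_cast
    rw [← add_assoc, this]
    push_cast at ih
    simp [ih]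
  | pred k ih =>
    have := h.per (τ + (-(k : ℝ) - 1)) z
    have e : τ + (-(k : ℝ) - 1) + 1 = τ + -(k : ℝ) := by ring
    rw [e] at this
    push_cast
    push_cast at ih
    rw [this] at ih
    simp at ih
    rw [ih]

lemma forall_of_Icc (h : Fam F E) {z : ℂ} {K : ℝ}
    (hK : ∀ τ ∈ Icc (0 : ℝ) 1, K ≤ Real.exp (-(2 * Real.pi * (F τ z).im))) (τ : ℝ) :
    K ≤ Real.exp (-(2 * Real.pi * (F τ z).im)) := by
  have h1 := im_int h (Int.fract τ) z ⌊τ⌋
  rw [Int.fract_add_floor] at h1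
  rw [h1]
  exact hK _ ⟨Int.fract_nonneg _, (Int.fract_lt_one _).le⟩

lemma cont_exp (h : Fam F E) :
    Continuous (fun q : ℂ × ℝ => Real.exp (-(2 * Real.pi * (F q.2 q.1).im))) := by
  have h1 : Continuous (fun q : ℂ × ℝ => F q.2 q.1) := h.cont.comp continuous_swap
  exact Real.continuous_exp.comp
    ((continuous_const.mul (Complex.continuous_im.comp h1)).neg)

lemma zero_mem_interior (h : Fam F E) : (0 : V2) ∈ interior (W F) := by
  -- a lower bound on the compact set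
  have hK : IsCompact (Metric.closedBall (0 : ℂ) 2 ×ˢ Icc (0 : ℝ) 1) :=
    (isCompact_closedBall _ _).prod isCompact_Icc
  obtain ⟨q0, _, hq0⟩ := hK.exists_isMinOn
    ⟨((0 : ℂ), (0 : ℝ)), ⟨by simp, ⟨le_refl _, zero_le_one⟩⟩⟩ (cont_exp h).continuousOn
  set δ : ℝ := Real.exp (-(2 * Real.pi * (F q0.2 q0.1).im)) with hδ
  have hδ0 : 0 < δ := Real.exp_pos _
  have hmin : ∀ z : ℂ, ‖z‖ ≤ 2 → ∀ τ : ℝ, δ ≤ Real.exp (-(2 * Real.pi * (F τ z).im)) := by
    intro z hz
    apply forall_of_Icc h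
    intro τ hτ
    have := hq0 (show (z, τ) ∈ Metric.closedBall (0 : ℂ) 2 ×ˢ Icc (0 : ℝ) 1 from
      ⟨by simpa using hz, hτ⟩)
    exact this
  have key : ∀ y : V2, ‖y 0‖ < δ → ‖y 1‖ ≤ ‖y 0‖ → y ∈ W F := by
    intro y h0 h1
    by_cases hy : y 0 = 0
    · have hy1 : y 1 = 0 := by
        rw [hy, norm_zero] at h1
        exact norm_le_zero_iff.mp h1
      refine ⟨0, 0, 0, by simp, le_refl _, zero_le_one, Or.inl ?_⟩
      funext i
      fin_cases i
      · simp [hy]
      · simp [hy1]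
    · have hz : ‖y 1 / y 0‖ ≤ 1 := by
        rw [norm_div, div_le_one (norm_pos_iff.mpr hy)]
        exact h1
      apply mem_W1' h hy (by linarith)
      intro τ
      exact le_trans h0.le (hmin _ (by linarith) τ)
  rw [mem_interior_iff_mem_nhds]
  have hb : Metric.ball (0 : V2) δ ∈ 𝓝 (0 : V2) := Metric.ball_mem_nhds _ hδ0
  filter_upwards [hb] with y hy
  have hn : ‖y‖ < δ := by simpa using hy
  have h0 : ‖y 0‖ < δ := lt_of_le_of_lt (norm_le_pi_norm y 0) hn
  have h1 : ‖y 1‖ < δ := lt_of_le_of_lt (norm_le_pi_norm y 1) hn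
  rcases le_total ‖y 1‖ ‖y 0‖ with h2 | h2
  · exact key y h0 h2
  · rw [← sw_mem_W_iff]
    apply key
    · simpa [sw] using h1
    · simpa [sw] using h2

lemma pt1_interior (h : Fam F E) (τ0 : ℝ) (z0 : ℂ) (hz0 : ‖z0‖ ≤ 2) (t : ℝ) (ht0 : 0 < t)
    (ht1 : t < 1) : t • pt1 z0 (F τ0 z0) ∈ interior (W F) := by
  set w0 := F τ0 z0 with hw0
  set x : V2 := t • pt1 z0 w0 with hx
  set ρ : ℝ := Real.exp (-(2 * Real.pi * w0.im)) with hρ
  have hρ0 : 0 < ρ := Real.exp_pos _
  set e0 : ℂ := Complex.exp (2 * Real.pi * w0.re * I) with he0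
  have he0n : e0 ≠ 0 := Complex.exp_ne_zero _
  have he0norm : ‖e0‖ = 1 := by
    rw [he0]
    have : (2 * Real.pi * w0.re * I : ℂ) = ((2 * Real.pi * w0.re : ℝ) : ℂ) * I := by push_cast; ring
    rw [this, Complex.norm_exp_ofReal_mul_I]
  have hx0 : x 0 = ((t * ρ : ℝ) : ℂ) * e0 := by
    simp only [hx, pt1, Pi.smul_apply, Complex.real_smul, Matrix.cons_val_zero]
    rw [exp_split, ← he0, ← hρ, Complex.ofReal_mul, mul_assoc]
  have hx0n : x 0 ≠ 0 := by
    rw [hx0]
    apply mul_ne_zero _ he0n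
    have : t * ρ ≠ 0 := by positivity
    exact_mod_cast this
  have hx1 : x 1 = z0 * x 0 := by
    rw [hx0]
    simp only [hx, pt1, Pi.smul_apply, Complex.real_smul, Matrix.cons_val_one,
      Matrix.cons_val_fin_one]
    rw [exp_split, ← he0, ← hρ, Complex.ofReal_mul]
    ring
  have hnx0 : ‖x 0‖ = t * ρ := by
    rw [hx0, norm_mul, he0norm, mul_one, Complex.norm_real, Real.norm_eq_abs, abs_of_pos]
    positivity
  have hc0 : Tendsto (fun y : V2 => y 0) (𝓝 x) (𝓝 (x 0)) := (continuous_apply 0).tendsto x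
  have hc1 : Tendsto (fun y : V2 => y 1) (𝓝 x) (𝓝 (x 1)) := (continuous_apply 1).tendsto x
  rw [mem_interior_iff_mem_nhds]
  rcases lt_or_eq_of_le hz0 with hlt | heq
  · -- chart 1
    have hz : Tendsto (fun y : V2 => y 1 / y 0) (𝓝 x) (𝓝 z0) := by
      have h1 := hc1.div hc0 hx0n
      have h2 : x 1 / x 0 = z0 := by rw [hx1]; field_simp
      rw [h2] at h1
      exact h1
    have harg : Tendsto (fun y : V2 => w0.re + Complex.arg (y 0 / e0) / (2 * Real.pi)) (𝓝 x)
        (𝓝 w0.re) := by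
      have h1 : Tendsto (fun y : V2 => y 0 / e0) (𝓝 x) (𝓝 (x 0 / e0)) := hc0.div_const e0
      have h2 : x 0 / e0 = ((t * ρ : ℝ) : ℂ) := by
        rw [hx0, mul_div_assoc, div_self he0n, mul_one]
      rw [h2] at h1
      have h3 : ContinuousAt Complex.arg (((t * ρ : ℝ) : ℂ)) := by
        apply Complex.continuousAt_arg
        rw [Complex.ofReal_mem_slitPlane]
        positivity
      have h4 := h3.tendsto.comp h1
      have h5 : Complex.arg (((t * ρ : ℝ) : ℂ)) = 0 := Complex.arg_ofReal_of_nonneg (by positivity)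
      rw [h5] at h4
      have h6 := (h4.div_const (2 * Real.pi)).const_add w0.re
      simpa using h6
    choose T hT1 hT2 using fun y : V2 =>
      exists_tau h (y 1 / y 0) (w0.re + Complex.arg (y 0 / e0) / (2 * Real.pi)) τ0
    have hFz : Tendsto (fun y : V2 => (F τ0 (y 1 / y 0)).re) (𝓝 x) (𝓝 w0.re) := by
      have h1 : Continuous fun z : ℂ => (F τ0 z).re :=
        Complex.continuous_re.comp (h.cont.comp (continuous_const.prodMk continuous_id))
      exact (h1.tendsto z0).comp hz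
    have hTt : Tendsto T (𝓝 x) (𝓝 τ0) := by
      rw [tendsto_iff_dist_tendsto_zero]
      have h1 : Tendsto (fun y : V2 => 2 * |(w0.re + Complex.arg (y 0 / e0) / (2 * Real.pi)) -
          (F τ0 (y 1 / y 0)).re|) (𝓝 x) (𝓝 0) := by
        have h2 := (harg.sub hFz).abs.const_mul 2
        simpa using h2
      exact squeeze_zero (fun y => dist_nonneg) (fun y => by rw [Real.dist_eq]; exact hT2 y) h1
    have hIm : Tendsto (fun y : V2 => Real.exp (-(2 * Real.pi * (F (T y) (y 1 / y 0)).im))) (𝓝 x)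
        (𝓝 ρ) := by
      have h1 := ((cont_exp h).tendsto (z0, τ0)).comp (hz.prodMk_nhds hTt)
      exact h1
    have hn : Tendsto (fun y : V2 => ‖y 0‖) (𝓝 x) (𝓝 (t * ρ)) := by
      have := hc0.norm
      rw [hnx0] at this
      exact this
    have hlt2 : t * ρ < ρ := by nlinarith
    have ev1 := hn.eventually_lt hIm hlt2
    have ev2 : ∀ᶠ y : V2 in 𝓝 x, ‖y 1 / y 0‖ < 2 := by
      have := hz.norm
      exact this.eventually (gt_mem_nhds hlt)
    have ev3 : ∀ᶠ y : V2 in 𝓝 x, y 0 ≠ 0 := hc0.eventually_ne hx0n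
    filter_upwards [ev1, ev2, ev3] with y h1 h2 h3
    refine mem_W1 (τ := T y) h3 h2.le ?_ h1.le
    rw [hT1]
    have hpi : (Real.pi : ℂ) ≠ 0 := by exact_mod_cast Real.pi_ne_zero
    have e1 : (2 * Real.pi * ((w0.re + Complex.arg (y 0 / e0) / (2 * Real.pi) : ℝ) : ℂ) * I) =
        2 * Real.pi * w0.re * I + Complex.arg (y 0 / e0) * I := by
      push_cast
      field_simp
    rw [e1, Complex.exp_add, ← he0]
    have e2 := Complex.norm_mul_exp_arg_mul_I (y 0 / e0)
    have e3 : ‖y 0 / e0‖ = ‖y 0‖ := by rw [norm_div, he0norm, div_one]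
    rw [e3] at e2
    have e4 : y 0 = (y 0 / e0) * e0 := by field_simp
    conv_lhs => rw [e4, ← e2]
    ring
  · -- chart 2
    have hz0n : z0 ≠ 0 := by
      intro h0
      rw [h0, norm_zero] at heq
      norm_num at heq
    have hx1n : x 1 ≠ 0 := by rw [hx1]; exact mul_ne_zero hz0n hx0n
    have hz : Tendsto (fun y : V2 => y 0 / y 1) (𝓝 x) (𝓝 z0⁻¹) := by
      have h1 := hc0.div hc1 hx1n
      have h2 : x 0 / x 1 = z0⁻¹ := by rw [hx1]; field_simp
      rw [h2] at h1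
      exact h1
    have hn : Tendsto (fun y : V2 => ‖y 1‖) (𝓝 x) (𝓝 (2 * (t * ρ))) := by
      have := hc1.norm
      rw [hx1, norm_mul, hnx0, heq] at this
      exact this
    have hlt2 : 2 * (t * ρ) < 2 * ρ := by nlinarith
    have ev1 : ∀ᶠ y : V2 in 𝓝 x, ‖y 1‖ < 2 * ρ := hn.eventually (gt_mem_nhds hlt2)
    have hrim : ∀ τ : ℝ, 2 * ρ < Real.exp (-(2 * Real.pi * (F τ z0⁻¹).im)) := by
      intro τ
      apply h.rim τ0 z0 τ z0⁻¹ heq
      rw [norm_inv, heq]; norm_num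
    have ev2' : ∀ᶠ z in 𝓝 z0⁻¹, ∀ τ ∈ Icc (0 : ℝ) 1,
        2 * ρ < Real.exp (-(2 * Real.pi * (F τ z).im)) := by
      apply isCompact_Icc.eventually_forall_of_forall_eventually
      intro τ _
      exact (cont_exp h).continuousAt.eventually (lt_mem_nhds (hrim τ))
    have ev2 := hz.eventually ev2'
    have ev3 : ∀ᶠ y : V2 in 𝓝 x, ‖y 0 / y 1‖ < 2 := by
      have h5 := hz.norm
      apply h5.eventually (gt_mem_nhds _)
      rw [norm_inv, heq]; norm_num
    have ev4 : ∀ᶠ y : V2 in 𝓝 x, y 1 ≠ 0 := hc1.eventually_ne hx1n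
    filter_upwards [ev1, ev2, ev3, ev4] with y h1 h2 h3 h4
    rw [← sw_mem_W_iff]
    have s0 : sw y 0 = y 1 := rfl
    have s1 : sw y 1 = y 0 := rfl
    apply mem_W1' h
    · rw [s0]; exact h4
    · rw [s0, s1]; exact h3.le
    · rw [s0, s1]
      apply forall_of_Icc h
      intro τ hτ
      exact le_trans h1.le (h2 τ hτ).le

end

theorem geo2 : T_geo2 := by
  intro F E h
  refine ⟨zero_mem_interior h, ?_⟩
  rintro x ⟨τ, z, _, hz, hx⟩ t ht0 ht1
  rcases eq_or_lt_of_le ht0 with h0 | h0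
  · rw [← h0, zero_smul]
    exact zero_mem_interior h
  · rcases hx with hx | hx
    · rw [hx]; exact pt1_interior h τ z hz t h0 ht1
    · rw [hx, ← sw_pt1, ← sw_smul]
      exact sw_interior (pt1_interior h τ z hz t h0 ht1)

end Pool.Agent.H9.CS
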